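import Mathlib
import Pool.Agent.U980.JT.Main

/-!
# Equidistribution of Galois orbits of special points: large subgroups, and products with bounded overlap

`GaloisTheory` collects the known facts used, for the components of Shimura varieties which are defined over a
fixed number field `E`, and `Γ = Gal(ℚ̄/E)`.

* Powers: if `S` is a component of the Shimura variety of `(G,X)`, `K`, then `S^{k+1}` is a component of the one
  of `(G^{k+1}, X^{k+1})`, `K^{k+1}`, with the product measure; its special points are the tuples of special
  points, with the diagonal Galois action.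
* `conj`: a special subvariety has finitely many conjugates over `E`, and they are special.
* `gal y`: the Galois group of `ℚ̄` over the composite of `E` and the splitting field `R` of the Mumford-Tate
  group of `y`; `R` is Galois over `ℚ`, of bounded degree, and `y` is defined over an abelian extension of it
  (reciprocity law).
* `generic`: let `x_n` be a strict sequence in `S`. For every proper special subvariety `Z` of `S^{k+1}` the
  proportion of the tuples `(y_0, ..., y_k)` of Galois conjugates of `x_n` with `(y_0, ..., y_k) ∈ Z` tends to zero.
  Indeed, if `Z` does not dominate one of the factors `S`, then `x_n` is in one of finitely many conjugates of a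
  proper special subvariety of `S`, so there are no such tuples for large `n`. Otherwise, by Goursat's lemma, for
  two different indices `l`, `l'` the images of `y_l` and `y_{l'}` in the quotient `S_a` of `S` for some simple
  factor of the adjoint group are in a correspondence of bounded degree; given `y_l`, the proportion of the
  possible `y_{l'}` is at most a constant divided by the size of the Galois orbit of the image of `x_n` in `S_a`,
  which tends to infinity (Galois orbits of special points: Tsimerman, Pila-Shankar-Tsimerman).

The theorem deduces from Q1 for the *powers* of single components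

* the equidistribution of the orbits of subgroups `Δ_i` of `Γ`, which may vary with `i`, if these orbits are not
  smaller than the Galois orbits by an unbounded factor. For instance, `Δ_i = Gal(ℚ̄/E_i)` with number fields
  `E_i ⊇ E` such that the degrees of `E_i ∩ E(x_i)` are bounded;
* the asymptotic independence of `x_i` and of all other algebraic data `w_i` (special points on other Shimura
  varieties, torsion points on abelian varieties, ...), if the field of definition of `x_i` is almost disjoint
  from the one of `w_i`;
* Q1 for products of different components `S_j`, for the tuples with almost disjoint fields of definition.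

## Proof

Let `B` be the orbit of `x_i` under a subgroup `H` of `gal (x_i)`, with `|Γ x_i| ≤ d |B|`. Since `gal (x_i)` acts
through an abelian group on its orbit, the orbit of a tuple in `B^{k+1}` under `H` is at least `1 / (C d)` of its
orbit under `Γ`, with a constant which *does not depend on `k`* (`orb_tuple`). So by Q1 for `S^{k+1}` the
`(k+1)`-st power of the average of `f ≥ 0` over `B` is asymptotically at most `C d (∫ f)^{k+1}`, and for
`k → ∞` the average is at most `∫ f` (`upper`). The lower bound follows from the upper bounds for the other
orbits and Q1 for `S` (`lower_of_upper`). The orbit of a pair `(x_i, w_i)` fibres over the orbit of `w_i`, and the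
fibres are orbits of the stabilizers of the conjugates of `w_i` (`main_joint`).
-/

set_option autoImplicit false

namespace Pool.Agent.Results.MP_9177b7_ag.BoundedOverlap

open Pool.Agent.U980.JT MeasureTheory Filter Topology MulAction

variable {Γ : Type} [Group Γ] (T : GaloisTheory Γ)

/-- Q1 holds for `S` and for all its powers. -/
def PowersHold (S : T.Sh) : Prop := Equidistribution T S ∧ ∀ k, Equidistribution T (T.pow S k)

/-- The orbits of strict sequences under subgroups `Δ i` of `Γ` are equidistributed, if they are not smaller than
the Galois orbits by an unbounded factor. -/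
def LargeSubgroups (S : T.Sh) : Prop :=
  ∀ x : ℕ → T.P S, Strict T x → ∀ (Δ : ℕ → Subgroup Γ) (d : ℝ),
    (∀ i, ((orbit Γ (x i)).ncard : ℝ) ≤ d * (orbit (Δ i) (x i)).ncard) →
    ∀ f : T.X S → ℝ, Continuous f → HasCompactSupport f →
      Tendsto (fun i => mean (orbit (Δ i) (x i)) fun y => f (T.pt y)) atTop (𝓝 (∫ y, f y ∂(T.m S)))

/-- A strict sequence `x i` in `S` is asymptotically independent of all points `w i` of sets with an action of
`Γ`, if the overlap `|Γ x| |Γ w| / |Γ (x, w)|` is bounded. -/
def Independence (S : T.Sh) : Prop :=
  ∀ x : ℕ → T.P S, Strict T x → ∀ (Q : Type) [MulAction Γ Q] (w : ℕ → Q),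
    (∀ i, (orbit Γ (w i)).Finite) → ∀ d : ℝ,
    (∀ i, ((orbit Γ (x i)).ncard : ℝ) * (orbit Γ (w i)).ncard ≤
      d * (orbit Γ ((x i, w i) : T.P S × Q)).ncard) →
    ∀ f : T.X S → ℝ, Continuous f → HasCompactSupport f → ∀ (h : ℕ → Q → ℝ) (M : ℝ),
      (∀ i q, |h i q| ≤ M) →
      Tendsto (fun i => mean (orbit Γ ((x i, w i) : T.P S × Q)) (fun z => f (T.pt z.1) * h i z.2) -
        (∫ y, f y ∂(T.m S)) * mean (orbit Γ (w i)) (h i)) atTop (𝓝 0)

/-- The Galois orbits of tuples of bounded overlap, which are strict in each coordinate, are equidistributed on
the product of the `S j`: tested with products of functions. -/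
def ProductEquidistribution {ι : Type} [Fintype ι] (S : ι → T.Sh) : Prop :=
  ∀ x : ℕ → ∀ j, T.P (S j), (∀ j, Strict T fun i => x i j) → ∀ d : ℝ,
    (∀ i, ∏ j, ((orbit Γ (x i j)).ncard : ℝ) ≤ d * (orbit Γ (x i)).ncard) →
    ∀ f : ∀ j, T.X (S j) → ℝ, (∀ j, Continuous (f j)) → (∀ j, HasCompactSupport (f j)) →
      Tendsto (fun i => mean (orbit Γ (x i)) (fun y => ∏ j, f j (T.pt (y j)))) atTop
        (𝓝 (∏ j, ∫ y, f j y ∂(T.m (S j))))

/-- **Q1 for the powers of the factors implies Q1 for products with bounded overlap, uniformity in the base
field, and independence of all other algebraic data.** -/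
theorem result :
    ((∀ S, Equidistribution T S) ↔ ∀ S, LargeSubgroups T S) ∧
    (∀ S, PowersHold T S → LargeSubgroups T S ∧ Independence T S) ∧
    ∀ {ι : Type} [Fintype ι] (S : ι → T.Sh), (∀ j, PowersHold T (S j)) → ProductEquidistribution T S := by
  have h1 : ∀ S, PowersHold T S → LargeSubgroups T S := by
    intro S hS x hx Δ d hd f hf hf2
    have key := main_sub T hS.1 hS.2 x hx Δ (d := d) (by
      intro i
      have h := hd i
      rwa [← coe_orb, Set.ncard_coe_finset, ← coe_sub T (Δ i) (x i), Set.ncard_coe_finset] at h) f hf hf2
    refine key.congr fun i => ?_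
    rw [← coe_sub T (Δ i) (x i), mean_coe]
  refine ⟨⟨fun h S => h1 S ⟨h S, fun k => h _⟩, fun h S x hx f hf hf2 => ?_⟩,
    fun S hS => ⟨h1 S hS, fun x hx Q _ w hw d hd f hf hf2 h M hM =>
      main_joint T hS.1 hS.2 x hx w hw hd f hf hf2 h hM⟩,
    fun S hS x hx d hd f hf hf2 =>
      main_product T (fun j => (hS j).1) (fun j => (hS j).2) x hx hd f hf hf2⟩
  have e : ∀ i, orbit (⊤ : Subgroup Γ) (x i) = orbit Γ (x i) := by
    intro i
    rw [← coe_sub T ⊤ (x i), sub_top, coe_orb]
  have key := h S x hx (fun _ => ⊤) 1 (fun i => by rw [e i, one_mul]) f hf hf2
  refine key.congr fun i => ?_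
  rw [e i, ← coe_orb, mean_coe]

end Pool.Agent.Results.MP_9177b7_ag.BoundedOverlap
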