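import Pool.Agent.U644.EQ.Fin

/-!
# Equidistribution of Galois orbits of special points: a subexponential loss in the dimension is harmless

`ShimuraTheory` collects the known facts used.

* Powers: if `S` is a component of the Shimura variety of `(G,X)`, `K`, defined over the number field `E_S`, then `S^{k+1}` is a
  component of the one of `(G^{k+1}, X^{k+1})`, `K^{k+1}`, defined over `E_S`, with the product measure; its special points are
  the tuples of special points, and the Galois orbits of tuples project to the Galois orbits of the components.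
* The fact `generic`: let `x_n` be a strict sequence in `S`. For every proper special subvariety `Z` of `S^{k+1}` the proportion of
  the tuples `(y_0, ..., y_k)` of Galois conjugates of `x_n` with `(y_0, ..., y_k) ∈ Z` tends to zero. Indeed, if `Z` does not
  dominate one of the factors `S`, then `x_n` is in one of finitely many conjugates of a proper special subvariety of `S`, so
  there are no such tuples for large `n`. Otherwise, by Goursat's lemma, for two different indices `l`, `l'` the images of `y_l`
  and `y_{l'}` in the quotient `S_a` of `S` for some simple factor of the adjoint group are in a correspondence of bounded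
  degree; given `y_l`, the proportion of the possible `y_{l'}` is at most a constant divided by the size of the Galois orbit of
  the image of `x_n` in `S_a`, which tends to infinity (Galois orbits of special points: Tsimerman, Pila-Shankar-Tsimerman).
-/

set_option autoImplicit false

namespace Pool.Agent.Results.MP_9177b7_ag.ExponentialLossSuffices

open MeasureTheory Filter Topology

open Classical in
/-- The connected components of Shimura varieties, of positive dimension, with the known facts that are used. -/
structure ShimuraTheory where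
  /-- the pairs of a component `S` of a Shimura variety, `dim S ≥ 1`, and of a number field `E_S` over which it is defined -/
  Sh : Type
  /-- the dimension -/
  dim : Sh → ℕ
  dim_pos : ∀ S, 1 ≤ dim S
  /-- the space `S(ℂ)` -/
  X : Sh → Type
  [top : ∀ S, TopologicalSpace (X S)]
  [t2 : ∀ S, T2Space (X S)]
  [lc : ∀ S, LocallyCompactSpace (X S)]
  [sc : ∀ S, SecondCountableTopology (X S)]
  [ms : ∀ S, MeasurableSpace (X S)]
  [bs : ∀ S, BorelSpace (X S)]
  /-- the invariant probability measure `μ_S` -/
  m : ∀ S, Measure (X S)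
  [prob : ∀ S, IsProbabilityMeasure (m S)]
  /-- the special points -/
  P : Sh → Type
  /-- a special point as a point of `S(ℂ)` -/
  pt : ∀ {S}, P S → X S
  /-- the orbit of a special point under the Galois group of `E_S` -/
  orb : ∀ {S}, P S → Finset (P S)
  self_mem : ∀ {S} (x : P S), x ∈ orb x
  orb_eq : ∀ {S} (x y : P S), y ∈ orb x → orb y = orb x
  /-- the proper special subvarieties -/
  Spec : ∀ S, Set (Set (X S))
  spec_countable : ∀ S, (Spec S).Countable
  /-- the power `S^{k+1}` -/
  pow : Sh → ℕ → Sh
  dim_pow : ∀ S k, dim (pow S k) = (k + 1) * dim S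
  /-- the points of the power -/
  powX : ∀ S k, X (pow S k) ≃ₜ (Fin (k + 1) → X S)
  /-- the special points of the power -/
  powP : ∀ S k, P (pow S k) ≃ (Fin (k + 1) → P S)
  pow_pt : ∀ S k (y : P (pow S k)) i, powX S k (pt y) i = pt (powP S k y i)
  pow_orb : ∀ S k (y z : P (pow S k)), z ∈ orb y → ∀ i, powP S k z i ∈ orb (powP S k y i)
  pow_m : ∀ S k, MeasurePreserving (powX S k) (m (pow S k)) (Measure.pi fun _ => m S)
  /-- tuples of Galois conjugates are usually not in a given proper special subvariety -/
  generic : ∀ S k (x : ℕ → P S), (∀ Z ∈ Spec S, ∀ᶠ i in atTop, pt (x i) ∉ Z) → ∀ Z ∈ Spec (pow S k),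
    Tendsto (fun i => (((Fintype.piFinset fun _ : Fin (k + 1) => orb (x i)).filter
      fun y => pt ((powP S k).symm y) ∈ Z).card : ℝ) / ((orb (x i)).card : ℝ) ^ (k + 1)) atTop (𝓝 0)

attribute [instance] ShimuraTheory.top ShimuraTheory.t2 ShimuraTheory.lc ShimuraTheory.sc ShimuraTheory.ms
  ShimuraTheory.bs ShimuraTheory.prob

variable (T : ShimuraTheory)

/-- Every proper special subvariety contains only finitely many points of the sequence. -/
def Strict {S : T.Sh} (x : ℕ → T.P S) : Prop := ∀ Z ∈ T.Spec S, ∀ᶠ i in atTop, T.pt (x i) ∉ Z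

/-- The average of `f` over the Galois orbit of `x`. -/
noncomputable def avg {S : T.Sh} (f : T.X S → ℝ) (x : T.P S) : ℝ := (∑ y ∈ T.orb x, f (T.pt y)) / (T.orb x).card

/-- Q1 for `S`: the Galois orbits of strict sequences are equidistributed. -/
def Equidistribution (S : T.Sh) : Prop :=
  ∀ x : ℕ → T.P S, Strict T x → ∀ f : T.X S → ℝ, Continuous f → HasCompactSupport f →
    Tendsto (fun i => avg T f (x i)) atTop (𝓝 (∫ y, f y ∂(T.m S)))

/-- For strict sequences every weak limit of the orbit measures is at least `c μ_S`. -/
def LowerBound (S : T.Sh) (c : ℝ) : Prop :=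
  ∀ x : ℕ → T.P S, Strict T x → ∀ f : T.X S → ℝ, Continuous f → HasCompactSupport f → (∀ y, 0 ≤ f y) →
    ∀ ε : ℝ, 0 < ε → ∀ᶠ i in atTop, c * ∫ y, f y ∂(T.m S) - ε ≤ avg T f (x i)

/-- For strict sequences every weak limit of the orbit measures is at most `C μ_S`. -/
def UpperBound (S : T.Sh) (C : ℝ) : Prop :=
  ∀ x : ℕ → T.P S, Strict T x → ∀ f : T.X S → ℝ, Continuous f → HasCompactSupport f → (∀ y, 0 ≤ f y) →
    ∀ ε : ℝ, 0 < ε → ∀ᶠ i in atTop, avg T f (x i) ≤ C * ∫ y, f y ∂(T.m S) + ε

open Classical in
/-- For strict sequences there is no escape of mass. -/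
def NoEscape (S : T.Sh) : Prop :=
  ∀ x : ℕ → T.P S, Strict T x → ∀ ε : ℝ, 0 < ε → ∃ K : Set (T.X S), IsCompact K ∧
    ∀ᶠ i in atTop, (1 - ε) * (T.orb (x i)).card ≤ ((T.orb (x i)).filter fun y => T.pt y ∈ K).card

def core : Pool.Agent.U644.EQ.EquiTheory.{0} where
  Sh := T.Sh
  dim := T.dim
  dim_pos := T.dim_pos
  X := T.X
  m := T.m
  P := T.P
  pt := T.pt
  orb := T.orb
  self_mem := T.self_mem
  orb_eq := T.orb_eq
  Spec := T.Spec
  spec_countable := T.spec_countable
  pow := T.pow
  dim_pow := T.dim_pow
  powX := T.powX
  powP := T.powP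
  pow_pt := T.pow_pt
  pow_orb := T.pow_orb
  pow_m := T.pow_m
  generic := T.generic

/-- (A) The following are equivalent: (1) Q1 for all `S`; (2) there are numbers `c(n)` with `1 ≤ c(n) θ^n` for all `θ > 1` and
large `n` such that for every `S` and every strict sequence all weak limits are at least `c(dim S) μ_S`; (3) there are numbers
`C(n)` with `C(n) ≤ θ^n` for all `θ > 1` and large `n` such that for every `S` and every strict sequence all weak limits are
at most `C(dim S) μ_S`, and there is no escape of mass. (B) Q1 holds for `S` if all weak limits for strict sequences in the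
powers `S^{k+1}` are at least `c(k)` times the invariant measure, where `1 ≤ c(k) θ^{k+1}` for all `θ > 1` and large `k`. -/
theorem result :
    List.TFAE [
      ∀ S, Equidistribution T S,
      ∃ c : ℕ → ℝ, (∀ θ : ℝ, 1 < θ → ∀ᶠ n : ℕ in atTop, 1 ≤ c n * θ ^ n) ∧ ∀ S, LowerBound T S (c (T.dim S)),
      ∃ C : ℕ → ℝ, (∀ θ : ℝ, 1 < θ → ∀ᶠ n : ℕ in atTop, C n ≤ θ ^ n) ∧
        ∀ S, UpperBound T S (C (T.dim S)) ∧ NoEscape T S] ∧
    ∀ (S : T.Sh) (c : ℕ → ℝ), (∀ θ : ℝ, 1 < θ → ∀ᶠ k : ℕ in atTop, 1 ≤ c k * θ ^ (k + 1)) →
      (∀ k, LowerBound T (T.pow S k) (c k)) → Equidistribution T S :=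
  ⟨Pool.Agent.U644.EQ.main (core T), fun S c hc h => Pool.Agent.U644.EQ.main_one (core T) S c hc h⟩

end Pool.Agent.Results.MP_9177b7_ag.ExponentialLossSuffices
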