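import Mathlib
import Pool.Agent.U980.SH.Main

/-!
# Equidistribution of Galois orbits on products of Shimura varieties: coordinates with independent CM fields

Let `S_j` (`j` in a finite set `ι`) be connected components of Shimura varieties `Sh_{K_j}(G_j, X_j)`, of arbitrary
and different types (the connected centres of the `G_j` are assumed to split over CM fields), defined over a number
field `E`. Their product is a component of the Shimura variety of `(∏ G_j, ∏ X_j)`. For a special point `y` of `S_j` let
`R(y)` be the splitting field of its Mumford-Tate group, a CM field which is Galois over `ℚ`, with maximal totally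
real subfield `R(y)⁺`, and let `size y` be (a power of) its discriminant.

Let `x_i = (x_{i,j})_j` be a sequence of special points of the product such that no special point occurs
infinitely often in a coordinate. This is weaker than the assumption of Q1, that no proper special subvariety
contains infinitely many `x_i`. For a tuple `x` let `L⁺` be the composite of the totally real fields
`R(x_l)⁺`. The coordinates `j` and `k` are *linked* if `R(x_k) ⊆ L⁺ R(x_j)`, that is, if `R(x_j)` and `R(x_k)`
generate the same quadratic extension of `L⁺`. For products of modular curves `L⁺ = ℚ`, and linked means that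
the CM fields are equal.

**Theorem.** Suppose that on each *single* `S_j` orbits of special points under large subgroups of the Galois
group are equidistributed (`SparseEquidistribution`, with exponent `δ > 0`), and that the 2-torsion of the groups
`Gal(R(y)(y)/R(y))` is small (`IsSpecial.tor`). Then the Galois orbits of the `x_i` over `E` are equidistributed
on the product in each of the following cases.

1. For all `i` no two coordinates of `x_i` are linked.
2. More generally, for all `i`, linked coordinates of `x_i` have sizes `s`, `s'` with `s' ≤ s ^ θ` or `s ≤ s' ^ θ`, where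
   `θ ≥ 0` and `n θ < δ` (`n` is the number of coordinates).
3. More generally, for all `i` there is an order of the coordinates such that the `overlap` of each coordinate
   is at most `c size ^ η`, where `η < δ`; the overlap is the degree over `L` of the intersection of `L(x_{i,j})`
   with the composite of the fields `L(x_{i,k})` for the *linked* preceding coordinates, where `L` is the composite
   of a fixed number field `E₁` and the fields `R(x_{i,l})`.

## The known facts

`G = Gal(ℚ̄/ℚ)`, `Γ = Gal(ℚ̄/E)`, `Γ₁ = Gal(ℚ̄/E₁)`, where `E₁` is Galois over `ℚ` and contains `E` and a ray class field,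
depending on the levels `K_j`, of the field of definition of the weights (a cyclotomic field `ℚ(ζ_M)` if the weights
are defined over `ℚ`). To have an action of `G`, the Shimura variety (over its reflex field) is
considered as a scheme over `ℚ`; its `ℚ̄`-points are the points of all the conjugates, which are Shimura
varieties again (Langlands' conjecture, proved by Borovoi and Milne), and conjugates of special points are
special, with the same torus.

`IsSpecial` follows from the reciprocity law: for `σ = rec(s)`, `s` an idele of `R`, `σ[h, a] = [h, N_{R/ℚ}(μ_h(s)) a]`. So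
`Gal(ℚ̄/R)` acts on the conjugates of a special point through an abelian group (`comm`). If `g` acts as complex
conjugation on `R`, then `g σ g⁻¹ = rec(g s)` acts by `N_{R/ℚ}(μ̄_h(s))`, and `μ_h μ̄_h` is the weight `w`, which is central
and the same for all `h`; so `g σ g⁻¹ σ` acts by `N_{R/ℚ}(w(s))`, which depends only on the norm of `s` to the field of
definition of `w`, hence trivially if `σ` fixes `E₁` (`inv`). The degree of `R` is bounded since the rank of the
torus is (`bounded`).

For Shimura curves over totally real fields `F_j` (and modular curves) `tor` is genus theory over `F_j`, since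
`Gal(R(y)(y)/R(y))` is, up to groups of bounded order, a subgroup of `Cl(O)/Cl(F_j)` for an order `O` of a CM field
which is quadratic over `F_j`. `SparseEquidistribution` is known for Shimura curves over totally real
fields, with `size` the discriminant of `O`: it follows from subconvexity bounds for the twisted
L-functions (Harcos-Michel, Zhang, Michel-Venkatesh). So case 1 proves Q1 for these points on products of
Shimura curves over (different) totally real fields.

## Proof

Let `V = Gal(ℚ̄/L)`. It acts on the conjugates of `x_l` through the abelian group `V / V_l`. If `j` and `k` are not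
linked, take `g` which is trivial on `R(x_j)` and acts on every `R(x_l)` trivially or as complex conjugation, and
nontrivially on `R(x_k)`. For `v` in `V` the element `v (g v g⁻¹)` fixes `x_k` and is `v²` modulo `V_j`; conjugation by `g`
preserves all `V_l` (`iterate`). So up to 2-torsion `V / V_j` is obtained from elements which fix all
coordinates which are not linked with `j` (`index_le`, `exists_delta`). Averaging over these elements in the last
coordinate, and so on, gives the equidistribution of the orbits of `V` (`main_core`), and then of `Γ` (`main`).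
-/

set_option autoImplicit false

namespace Pool.Agent.Results.MP_9177b7_ag.IndependentCMFields

open Pool.Agent.U980.SH MeasureTheory Filter Topology MulAction

variable {G : Type} [Group G] {ι : Type} {Y : ι → SpecialPoints G}

/-- Every special point occurs only finitely often in each coordinate. -/
def CoordinatewiseStrict (x : ℕ → ∀ j, (Y j).P) : Prop :=
  ∀ j, ∀ p : (Y j).P, ∀ᶠ i in atTop, x i j ≠ p

/-- The Galois orbits of the points `x i` are equidistributed on the product of the components. -/
def Equidistributed [Fintype ι] (Γ : Subgroup G) (x : ℕ → ∀ j, (Y j).P) : Prop :=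
  ∀ f : BoundedContinuousFunction (∀ j, (Y j).X) ℝ,
    Tendsto (fun i => ∫ z, f z ∂(galoisMeasure Γ (x i))) atTop
      (𝓝 (∫ z, f z ∂(Measure.pi fun j => (Y j).m)))

/-- Linked coordinates of `x` have different size. -/
def DifferentSizes (θ : ℝ) (x : ∀ j, (Y j).P) : Prop :=
  ∀ j k, j ≠ k → Linked x j k →
    ((Y k).size (x k) : ℝ) ≤ ((Y j).size (x j) : ℝ) ^ θ ∨
      ((Y j).size (x j) : ℝ) ≤ ((Y k).size (x k) : ℝ) ^ θ

theorem exists_rank {ι : Type} [Fintype ι] (D : ι → ℕ) :
    ∃ r : ι → ℕ, Function.Injective r ∧ ∀ j k, r k < r j → D k ≤ D j := by
  set n := Fintype.card ι with hn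
  let e : ι ≃ Fin n := Fintype.equivFin ι
  refine ⟨fun j => D j * n + (e j : ℕ), ?_, ?_⟩
  · intro j k hjk
    have hjk' : D j * n + (e j : ℕ) = D k * n + (e k : ℕ) := hjk
    have h1 : (D j * n + (e j : ℕ)) % n = (D k * n + (e k : ℕ)) % n := by rw [hjk']
    rw [Nat.mul_add_mod', Nat.mul_add_mod', Nat.mod_eq_of_lt (e j).2, Nat.mod_eq_of_lt (e k).2] at h1
    exact e.injective (Fin.ext h1)
  · intro j k hkj
    have h2 : D k * n + (e k : ℕ) < D j * n + (e j : ℕ) := hkj
    have h3 := (e j).2
    by_contra hlt
    push Not at hlt
    have h4 : (D j + 1) * n ≤ D k * n := Nat.mul_le_mul_right n hlt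
    rw [add_mul, one_mul] at h4
    omega

/-- **Equidistribution of the Galois orbits of special points on products of Shimura varieties, if the CM
fields of the coordinates are independent, or linked coordinates have different sizes, or small overlap.** -/
theorem result [Fintype ι] {Γ Γ₁ : Subgroup G} (hΓ₁ : Γ₁.Normal) (hle : Γ₁ ≤ Γ)
    (hfi : Γ₁.index ≠ 0) (hY : ∀ j, IsSpecial Γ Γ₁ (Y j)) {δ : ℝ} (hδ : 0 < δ)
    (hE : ∀ j, SparseEquidistribution Γ (Y j) δ) (x : ℕ → ∀ j, (Y j).P)
    (hx : ∀ i j, x i j ∈ (Y j).comp) (hs : CoordinatewiseStrict x) :
    ((∀ i j k, j ≠ k → ¬ Linked (x i) j k) → Equidistributed Γ x) ∧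
    (∀ θ : ℝ, 0 ≤ θ → Fintype.card ι * θ < δ → (∀ i, DifferentSizes θ (x i)) → Equidistributed Γ x) ∧
    ∀ r : ℕ → ι → ℕ, (∀ i, Function.Injective (r i)) → ∀ c η : ℝ, η < δ →
      (∀ i j, (overlap Γ₁ (r i) (x i) j : ℝ) ≤ c * ((Y j).size (x i j) : ℝ) ^ η) →
      Equidistributed Γ x := by
  classical
  have hD : ∀ j, Tendsto (fun i => (Y j).size (x i j)) atTop atTop := fun j => size_tendsto (hY j) (hs j)
  have hC : ∀ r : ℕ → ι → ℕ, (∀ i, Function.Injective (r i)) → ∀ c η : ℝ, η < δ →
      (∀ j, ∀ᶠ i in atTop, (overlap Γ₁ (r i) (x i) j : ℝ) ≤ c * ((Y j).size (x i j) : ℝ) ^ η) →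
      Equidistributed Γ x := fun r hr c η hη hov f =>
    main hΓ₁ hle hfi hY hE x hx hD r hr hη hov f
  refine ⟨fun hind => ?_, fun θ hθ hθδ hsize => ?_, fun r hr c η hη hov =>
    hC r hr c η hη fun j => Eventually.of_forall fun i => hov i j⟩
  · refine hC (fun _ j => (Fintype.equivFin ι j : ℕ))
      (fun _ a b h => (Fintype.equivFin ι).injective (Fin.ext h)) 1 0 hδ fun j =>
      Eventually.of_forall fun i => ?_
    rw [overlap_eq_one fun k hkj => hind i j k hkj.symm]
    simp
  · choose r hr hrD using fun i => exists_rank fun j => (Y j).size (x i j)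
    choose C hCn using fun j => (hY j).orbit_le
    set B : ℝ := ∑ j, |C j| + 1 with hB
    have hB1 : 1 ≤ B := by
      have : 0 ≤ ∑ j, |C j| := Finset.sum_nonneg fun j _ => abs_nonneg _
      linarith
    refine hC r hr (B ^ Fintype.card ι) (Fintype.card ι * θ) hθδ fun j => ?_
    filter_upwards [(hD j).eventually_ge_atTop 1] with i hi
    have hD1 : (1 : ℝ) ≤ (Y j).size (x i j) := by exact_mod_cast hi
    have hD0 : (0 : ℝ) ≤ (Y j).size (x i j) := le_trans zero_le_one hD1
    have hpow1 : (1 : ℝ) ≤ ((Y j).size (x i j) : ℝ) ^ θ := Real.one_le_rpow hD1 hθ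
    have h1 := overlap_le hY (r i) (x i) j
    have h2 : (overlap Γ₁ (r i) (x i) j : ℝ) ≤ ∏ k, ((if r i k < r i j ∧ Linked (x i) j k then
        (orbit G (x i k)).ncard else 1 : ℕ) : ℝ) := by
      exact_mod_cast h1
    refine h2.trans ?_
    have h3 : ∏ k, ((if r i k < r i j ∧ Linked (x i) j k then
        (orbit G (x i k)).ncard else 1 : ℕ) : ℝ) ≤
        ∏ _k : ι, (B * ((Y j).size (x i j) : ℝ) ^ θ) := by
      refine Finset.prod_le_prod (fun k _ => Nat.cast_nonneg _) fun k _ => ?_
      split_ifs with hk
      · have h4 : ((Y k).size (x i k) : ℝ) ≤ ((Y j).size (x i j) : ℝ) ^ θ := by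
          have h5 : (Y k).size (x i k) ≤ (Y j).size (x i j) := hrD i j k hk.1
          have h6 : ((Y k).size (x i k) : ℝ) ≤ (Y j).size (x i j) := by exact_mod_cast h5
          rcases hsize i j k (fun h => by rw [h] at hk; exact lt_irrefl _ hk.1) hk.2 with h | h
          · exact h
          · exact h6.trans (h.trans (Real.rpow_le_rpow (Nat.cast_nonneg _) h6 hθ))
        have h7 : C k ≤ B := by
          have : |C k| ≤ ∑ j, |C j| := Finset.single_le_sum (f := fun j => |C j|)
            (fun j _ => abs_nonneg _) (Finset.mem_univ k)
          linarith [le_abs_self (C k)]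
        calc ((orbit G (x i k)).ncard : ℝ)
            ≤ C k * (Y k).size (x i k) := hCn k (x i k)
          _ ≤ B * (Y k).size (x i k) := mul_le_mul_of_nonneg_right h7 (Nat.cast_nonneg _)
          _ ≤ B * ((Y j).size (x i j) : ℝ) ^ θ := mul_le_mul_of_nonneg_left h4 (by linarith)
      · push_cast
        nlinarith
    refine h3.trans (le_of_eq ?_)
    rw [Finset.prod_const, Finset.card_univ, mul_pow, ← Real.rpow_natCast (((Y j).size (x i j) : ℝ) ^ θ),
      ← Real.rpow_mul hD0, mul_comm θ]

end Pool.Agent.Results.MP_9177b7_ag.IndependentCMFields
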