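import Mathlib
import Pool.Agent.U980.RP.Pairs

/-!
# Equidistribution of Galois orbits of special points: growing relative degrees

Let `S` be a component of any Shimura variety and let `T_1, …, T_n` be components of Shimura curves
(for instance modular curves), all over a number field `E`, and `G = Gal(ℚ̄/E)`. Let
`x_i = (s_i, t_{i,1}, …, t_{i,n})` be special points of `S × T_1 × ⋯ × T_n`.

**Theorem.**

1. Let `T` be one of the curves, `t_i` special points of `T` with the mixing property, and `Δ_i` normal
   subgroups of `G` such that the number of elements of the orbit `Δ_i t_i` tends to infinity, arbitrarily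
   slowly. Then for every bounded continuous function `f` on `T` and `ε > 0`, for all large `i` and for all but
   a proportion `ε` of the Galois conjugates `z` of `t_i`, the mean of `f` over the orbit `Δ_i z` differs from
   the mean of `f` over `T` by at most `ε`.
2. Suppose that the Galois orbits of the `s_i` are equidistributed on `S`, that the sequences `t_{i,j}` have the
   mixing property, and that for all `i`, in some order of the curves, the orbit of each `t_{i,j}` under the
   subgroup of `G` which fixes all the conjugates of `s_i` and of the preceding coordinates has at least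
   `M_i` elements, where `M_i` tends to infinity (arbitrarily slowly). Then the Galois orbits of the `x_i` are
   equidistributed on `S × T_1 × ⋯ × T_n`.
3. The mixing property of a sequence of special points on `T`, in which no point occurs infinitely
   often, is a case of the question for `T × T`.

So the question for `S` and for the squares `T_j × T_j` implies the question for `S × T_1 × ⋯ × T_n`, for all
sequences of special points such that the degrees of the fields of definition of the coordinates,
relative to the Galois closures of the fields of definition of the preceding coordinates, tend to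
infinity. There is no condition on the size of these degrees compared with discriminants.

## The notions

`Variety`: a component `S` of a Shimura variety over `E` with its special points `P`, the action of `G` on them,
the space `S(ℂ)` and the invariant probability measure. `Correspondences`: the Hecke correspondences, that is,
the proper special subvarieties of `T × T` for a curve `T` which are not of the form `{p} × T` or `T × {p}` (or a
point); they are countably many, and each has a finite degree over the first factor.
`PairEquidistribution`: the question for `T × T`. `Mixing`: for all conjugates `b_i` of `t_i` such that `(t_i, b_i)` is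
eventually outside each Hecke correspondence, the Galois orbits of `(t_i, b_i)` are equidistributed on `T × T`.
(For modular curves this is the mixing conjecture of Michel and Venkatesh; Khayutin proved it for
fundamental discriminants under congruence conditions at two primes and without Landau-Siegel zeros.)
Weak convergence of probability measures is tested with bounded continuous functions, which is the
same as with continuous functions with compact support if the limit is a probability measure.

## Proof

The mean square deviation, over the conjugates `z` of `t_i`, of the mean of `f` over `Δ_i z` is expressed by the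
correlations of `f` at the pairs `(z, w)` with `w` in `Δ_i z`. As `Δ_i` is normal, this is the mean over `w` in `Δ_i t_i`
of the averages of `f ⊗ f` over the Galois orbits of the pairs `(t_i, w)` (`sum_pairs`). For each Hecke
correspondence only a bounded number of `w` is related to `t_i`, and the number of all `w` tends to infinity.
So most pairs are generic, their orbit averages converge by the mixing property, and the mean square
deviation tends to zero (`gen`, `variance`). Then the coordinates are averaged one after the other over the
groups which fix the conjugates of the preceding coordinates (`equi'`).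
-/

set_option autoImplicit false

namespace Pool.Agent.Results.MP_9177b7_ag.RelativeDegrees

open Pool.Agent.U980.RP MulAction MeasureTheory Filter Topology ProbabilityTheory

variable {G : Type} [Group G] {ι : Type} {Y : ι → Variety G}

/-- The subgroup which fixes all the Galois conjugates of the coordinates which precede the `j`-th one. -/
def fixing (r : ι → ℕ) (x : ∀ j, (Y j).P) (j : ι) : Subgroup G :=
  ⨅ k, ⨅ _ : r k < r j, (stabilizer G (x k)).normalCore

/-- For most conjugates `z` of `t i` the mean of each bounded continuous function over the orbit of `z` under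
`Δ i` is close to its mean over `T`. -/
def MostOrbits (T : Variety G) (t : ℕ → T.P) (Δ : ℕ → Subgroup G) : Prop :=
  ∀ f : BoundedContinuousFunction T.X ℝ, ∀ ε : ℝ, 0 < ε → ∀ᶠ i in atTop,
    (({z | z ∈ orbit G (t i) ∧ ε < |∫ w, f w ∂(uniformOn (T.pt '' orbit (Δ i) z)) -
      ∫ w, f w ∂T.m|} : Set T.P).ncard : ℝ) ≤ ε * (orbit G (t i)).ncard

theorem sub_coe (T : Variety G) (H : Subgroup G) (p : T.P) : (sub T H p : Set T.P) = orbit H p := by
  ext q
  rw [Finset.mem_coe, Pool.Agent.U980.RP.mem_sub]

theorem orb_coe (T : Variety G) (p : T.P) : (orb T p : Set T.P) = orbit G p := by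
  ext q
  rw [Finset.mem_coe, mem_orb]

theorem most {T : Variety G} {C : Correspondences T} {t : ℕ → T.P} (hC : Mixing T C t)
    {Δ : ℕ → Subgroup G} (hΔ : ∀ i, (Δ i).Normal)
    (hbig : Tendsto (fun i => (orbit (Δ i) (t i)).ncard) atTop atTop) : MostOrbits T t Δ := by
  classical
  intro f ε hε
  have hb : Tendsto (fun i => (sub T (Δ i) (t i)).card) atTop atTop := by
    refine hbig.congr fun i => ?_
    rw [← sub_coe, Set.ncard_coe_finset]
  have hv := variance t hC Δ hΔ hb f
  rw [Metric.tendsto_nhds] at hv
  filter_upwards [hv (ε ^ 3) (by positivity)] with i hi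
  set μ := ∫ w, f w ∂T.m with hμ
  set ψ : T.P → ℝ := fun z => Pool.Agent.U980.EQ.av (sub T (Δ i) z) (fun w => f (T.pt w)) - μ with hψ
  have hO0 : (0 : ℝ) < (orb T (t i)).card := by
    exact_mod_cast Finset.card_pos.2 ⟨_, self_orb T (t i)⟩
  have hset : ({z | z ∈ orbit G (t i) ∧ ε < |∫ w, f w ∂(uniformOn (T.pt '' orbit (Δ i) z)) - μ|} :
      Set T.P) = ((orb T (t i)).filter fun z => ε < |ψ z| : Finset T.P) := by
    ext z
    rw [Finset.mem_coe, Finset.mem_filter, mem_orb]
    have h1 : ∫ w, f w ∂(uniformOn (T.pt '' orbit (Δ i) z)) =
        Pool.Agent.U980.EQ.av (sub T (Δ i) z) (fun w => f (T.pt w)) := by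
      rw [← sub_coe, Pool.Agent.U980.EQ.integral_uniformOn_image T.pt_inj]
      rfl
    change (z ∈ orbit G (t i) ∧ ε < |∫ w, f w ∂(uniformOn (T.pt '' orbit (Δ i) z)) - μ|) ↔ _
    rw [h1]
  rw [hset, Set.ncard_coe_finset, ← orb_coe, Set.ncard_coe_finset]
  have h2 : Pool.Agent.U980.EQ.av (orb T (t i)) (fun z => ψ z ^ 2) < ε ^ 3 := by
    have h3 := hi
    rw [Real.dist_eq, sub_zero] at h3
    exact (le_abs_self _).trans_lt h3
  rw [Pool.Agent.U980.EQ.av, div_lt_iff₀ hO0] at h2
  have h4 : (((orb T (t i)).filter fun z => ε < |ψ z|).card : ℝ) * ε ^ 2 ≤
      ∑ z ∈ orb T (t i), ψ z ^ 2 := by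
    calc (((orb T (t i)).filter fun z => ε < |ψ z|).card : ℝ) * ε ^ 2
        = ∑ _z ∈ (orb T (t i)).filter fun z => ε < |ψ z|, ε ^ 2 := by
          rw [Finset.sum_const, nsmul_eq_mul]
      _ ≤ ∑ z ∈ (orb T (t i)).filter fun z => ε < |ψ z|, ψ z ^ 2 := by
          refine Finset.sum_le_sum fun z hz => ?_
          rw [← sq_abs (ψ z)]
          exact pow_le_pow_left₀ hε.le (Finset.mem_filter.1 hz).2.le 2
      _ ≤ _ := Finset.sum_le_sum_of_subset_of_nonneg (Finset.filter_subset _ _)
          fun z _ _ => sq_nonneg _
  have hε2 : 0 < ε ^ 2 := by positivity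
  have h5 : (((orb T (t i)).filter fun z => ε < |ψ z|).card : ℝ) * ε ^ 2 ≤
      (ε * (orb T (t i)).card) * ε ^ 2 := by
    refine h4.trans (h2.le.trans (le_of_eq ?_))
    ring
  exact le_of_mul_le_mul_right h5 hε2

/-- **Equidistribution of Galois orbits of special points when the relative degrees tend to infinity.** -/
theorem result :
    (∀ (T : Variety G) (C : Correspondences T) (t : ℕ → T.P), Mixing T C t →
      ∀ Δ : ℕ → Subgroup G, (∀ i, (Δ i).Normal) →
      Tendsto (fun i => (orbit (Δ i) (t i)).ncard) atTop atTop → MostOrbits T t Δ) ∧
    (∀ (_ : Fintype ι) (o : ι) (C : ∀ j, Correspondences (Y j)) (x : ℕ → ∀ j, (Y j).P),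
      (∀ f : BoundedContinuousFunction (Y o).X ℝ,
        Tendsto (fun i => ∫ z, f z ∂(uniformOn ((Y o).pt '' orbit G (x i o)))) atTop
          (𝓝 (∫ z, f z ∂(Y o).m))) →
      (∀ j, j ≠ o → Mixing (Y j) (C j) fun i => x i j) →
      ∀ r : ℕ → ι → ℕ, (∀ i, Function.Injective (r i)) → (∀ i j, j ≠ o → r i o < r i j) →
      ∀ M : ℕ → ℕ, Tendsto M atTop atTop →
      (∀ i j, j ≠ o → M i ≤ (orbit (fixing (r i) (x i) j) (x i j)).ncard) →
      ∀ f : BoundedContinuousFunction (∀ j, (Y j).X) ℝ,
        Tendsto (fun i => ∫ z, f z ∂(galoisMeasure (x i))) atTop
          (𝓝 (∫ z, f z ∂(Measure.pi fun j => (Y j).m)))) ∧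
    ∀ (T : Variety G) (C : Correspondences T), PairEquidistribution T C →
      ∀ t : ℕ → T.P, (∀ p, ∀ᶠ i in atTop, t i ≠ p) → Mixing T C t := by
  classical
  refine ⟨fun T C t hC Δ hΔ hbig => most hC hΔ hbig, ?_, fun T C hC t ht => mixing_of_pair hC ht⟩
  intro _ o C x hS hmix r hr ho M hM hbig f
  have hn : ∀ i j, (fixing (r i) (x i) j).Normal := fun i j =>
    Subgroup.normal_iInf_normal fun k => Subgroup.normal_iInf_normal fun _ =>
      Subgroup.normalCore_normal _
  refine equi' (fun j => (Y j).pt_inj) (fun j p => (Y j).finite_orbit p) x r hr
    (fun i j => fixing (r i) (x i) j) hn ?_ ?_ f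
  · intro i j k hk d hd g
    have h1 : d ∈ (stabilizer G (x i k)).normalCore :=
      ((iInf_le _ k).trans (iInf_le _ hk) : fixing (r i) (x i) j ≤ _) hd
    have h2 : (g⁻¹ * d * g⁻¹⁻¹) • x i k = x i k := h1 g⁻¹
    rw [inv_inv, mul_smul, mul_smul, inv_smul_eq_iff] at h2
    exact h2
  · intro j
    by_cases hj : j = o
    · subst hj
      intro f' ε hε
      have h1 := hS f'
      rw [Metric.tendsto_nhds] at h1
      filter_upwards [h1 ε hε] with i hi
      have htop : fixing (r i) (x i) j = ⊤ := by
        refine iInf_eq_top.2 fun k => iInf_eq_top.2 fun hk => ?_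
        by_cases hkj : k = j
        · rw [hkj] at hk
          exact absurd hk (lt_irrefl _)
        · exact absurd hk (not_lt.2 (ho i k hkj).le)
      have e : ({z | z ∈ orbit G (x i j) ∧ ε < |∫ w, f' w ∂(uniformOn ((Y j).pt ''
          orbit (fixing (r i) (x i) j) z)) - ∫ w, f' w ∂(Y j).m|} : Set (Y j).P) = ∅ := by
        rw [Set.eq_empty_iff_forall_notMem]
        rintro z ⟨hz, hz'⟩
        have h2 : (orbit (fixing (r i) (x i) j) z : Set (Y j).P) = orbit G (x i j) := by
          rw [htop, ← orbit_eq_iff.2 hz]
          ext w
          constructor
          · rintro ⟨g, rfl⟩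
            exact ⟨(g : G), rfl⟩
          · rintro ⟨g, rfl⟩
            exact ⟨⟨g, Subgroup.mem_top g⟩, rfl⟩
        rw [h2] at hz'
        rw [Real.dist_eq] at hi
        exact absurd hz' (not_lt.2 hi.le)
      rw [e, Set.ncard_empty, Nat.cast_zero]
      positivity
    · exact most (hmix j hj) (fun i => hn i j)
        (tendsto_atTop_mono (fun i => hbig i j hj) hM)

end Pool.Agent.Results.MP_9177b7_ag.RelativeDegrees
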